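import Pool.Agent.X270.Comm.Cone
import Pool.Agent.X265.Sub.Main

/-!
# The Bass trace conjecture and commensurating actions

A subset `A` of a `G`-set `X` is commensurated if `g A` and `A` differ by finitely many points for all
`g ∈ G`; equivalently, `G` acts on a CAT(0) cube complex of arbitrary, possibly infinite, dimension.
We show, over every commutative domain, that the Hattori-Stallings ranks vanish at all elements
`g` for which the symmetric differences of `g ^ m A` and `A`, `m ≥ 0`, have unbounded cardinality. So the
Bass trace conjecture holds, over all commutative domains, for all groups all of whose elements of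
infinite order have this property for some commensurated set, for example for all groups acting
properly on a CAT(0) cube complex.

Let `Γ` be a self-similar group of bijections of the Cantor set `D ^ ω`. A group `G` of bijections such
that each `g ∈ G` maps all but finitely many cones `u D ^ ω` by similarities `u x ↦ w γ(x)`, `γ ∈ Γ`, has
a natural commensurating action. We deduce that the rank vanishes at all `g` such that no power
`g ^ k`, `k > 0`, maps each cone of some level to itself by an element of `Γ`, and that the conjecture
holds for `G` over all commutative domains if `Γ` is a torsion group; for example, for the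
Higman-Thompson groups (`Γ = 1`), for Röver's group (`Γ` the Grigorchuk group) and all their subgroups.

Idea of the proof. The cocycle `1_{gA} - 1_A` takes values in the finitely supported functions on `X`.
If its value at `g` has nonzero sum over some orbit of `g`, then `g ^ n A` and `A` differ by at least
`n` points, and `x g x⁻¹ = g ^ k`, `k ≥ 2`, is impossible; otherwise it is of the form `g u - u`.
-/

set_option autoImplicit false

namespace Pool.Agent.Results.MP_7903c7_al.CommensuratingActions

open Pool.Agent.X270.Comm
open Pool.Agent.H26R2.Bass (tau tau_eq exists_local tf_zero_of_good tf_zero_of_finite Good ind)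

universe t u v w

/-- The rank of the idempotent matrix `E` over `R[G]` at the conjugacy class of `g`. -/
noncomputable def rank {R : Type u} [CommRing R] {G : Type v} [Group G] {n : ℕ}
    (E : Matrix (Fin n) (Fin n) (MonoidAlgebra R G)) (g : G) : R :=
  ∑ i : Fin n, ∑ᶠ (h : G) (_ : IsConj h g), (E i i).coeff h

/-- The Bass trace conjecture for the ring `R` and the group `G`. -/
def BassFor (R : Type u) [CommRing R] (G : Type v) [Group G] : Prop :=
  ∀ (n : ℕ) (E : Matrix (Fin n) (Fin n) (MonoidAlgebra R G)), E * E = E →
    ∀ g : G, ¬ IsUnit ((orderOf g : ℕ) : R) → rank E g = 0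

/-- The symmetric differences of `g ^ m A` and `A` have unbounded cardinality. -/
def Unbounded {G : Type v} [Group G] {X : Type w} [MulAction G X] (A : Set X) (g : G) : Prop :=
  ∀ b : ℕ, ∃ m : ℕ, b < (moved A (g ^ m)).ncard

theorem part1 (R : Type u) [CommRing R] [IsDomain R] (G : Type v) [Group G]
    (X : Type w) [MulAction G X] (A : Set X) (hA : Commensurated G A)
    (n : ℕ) (E : Matrix (Fin n) (Fin n) (MonoidAlgebra R G)) (hE : E * E = E) (g : G)
    (hg : Unbounded A g) : rank E g = 0 := by
  change tau E g = 0
  rw [tau_eq]
  by_contra hne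
  obtain ⟨H, hH, B, hB, h, hconj, hne'⟩ := exists_local E hE g hne
  apply hne'
  apply tf_zero_of_good B hB h
  apply Pool.Agent.X265.Sub.good_of_not_conj
  intro k hk
  exact not_conj hA (h : G) (unbounded_conj hA hconj.symm hg) hk

theorem part2 (R : Type u) [CommRing R] [IsDomain R] (G : Type v) [Group G]
    (h : ∀ g : G, ¬ IsOfFinOrder g → ∃ (X : Type w) (_ : MulAction G X) (A : Set X),
      Commensurated G A ∧ Unbounded A g) : BassFor R G := by
  intro n E hE g hg
  by_cases hfin : orderOf g = 0
  · obtain ⟨X, _, A, hA, hU⟩ := h g (orderOf_eq_zero_iff.1 hfin)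
    exact part1 R G X A hA n E hE g hU
  · exact Pool.Agent.X265.Sub.tau_zero_fin E hE g hfin hg

theorem result (R : Type u) [CommRing R] [IsDomain R] (G : Type v) [Group G] :
    -- (1) commensurating actions
    (∀ (X : Type w) [MulAction G X] (A : Set X), Commensurated G A →
      ∀ (n : ℕ) (E : Matrix (Fin n) (Fin n) (MonoidAlgebra R G)), E * E = E →
        ∀ g : G, Unbounded A g → rank E g = 0) ∧
    -- (2) groups whose elements of infinite order are unbounded
    ((∀ g : G, ¬ IsOfFinOrder g → ∃ (X : Type w) (_ : MulAction G X) (A : Set X),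
      Commensurated G A ∧ Unbounded A g) → BassFor R G) ∧
    -- (3) groups of almost similarities
    (∀ (C : Type w) (D : Type t) [Nonempty C] [Nontrivial D] [Finite D] (e : D × C ≃ C)
      (Γ : Subgroup (Equiv.Perm C)), SelfSimilar e Γ → ∀ φ : G →* Equiv.Perm C,
      (∀ g : G, (bad e Γ (φ g)).Finite) →
      (∀ (n : ℕ) (E : Matrix (Fin n) (Fin n) (MonoidAlgebra R G)), E * E = E → ∀ g : G,
        (∀ k N : ℕ, 0 < k → ∃ u : List D, u.length = N ∧
          ¬ ∃ γ ∈ Γ, ∀ x, φ (g ^ k) (cone e u x) = cone e u (γ x)) → rank E g = 0) ∧
      ((∀ γ ∈ Γ, IsOfFinOrder γ) → Function.Injective φ → BassFor R G)) := by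
  refine ⟨fun X _ A hA n E hE g hg => part1 R G X A hA n E hE g hg, part2 R G,
    fun C D _ _ _ e Γ hΓ φ hφ => ⟨fun n E hE g hg => ?_, fun hT hinj => ?_⟩⟩
  · let _ := actS (C := C) φ
    refine part1 R G (Set (C → C)) (cls e Γ) (commensurated φ hφ) n E hE g ?_
    by_contra hcon
    unfold Unbounded at hcon
    push Not at hcon
    obtain ⟨B, hB⟩ := hcon
    obtain ⟨k, hk, h⟩ := elliptic hΓ φ hφ g B hB
    obtain ⟨u, hu, hu2⟩ := hg k B hk
    exact hu2 (h u hu)
  · refine part2.{u, v, w} R G fun g hg => ?_
    refine ⟨Set (C → C), actS φ, cls e Γ, commensurated φ hφ, ?_⟩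
    by_contra hcon
    unfold Unbounded at hcon
    push Not at hcon
    obtain ⟨B, hB⟩ := hcon
    exact hg (finOrder_of_bounded hΓ hT φ hinj hφ g B hB)

end Pool.Agent.Results.MP_7903c7_al.CommensuratingActions
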