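import Mathlib
import Pool.Agent.X267.CC.Trace

set_option autoImplicit false

/-!
Traces of idempotent matrices over group rings which are monomial with constant coefficients outside
a few rows and columns.
-/

namespace Pool.Agent.Results.MP_7903c7_al.ConstantCoreTraces

open MonoidAlgebra
open Pool.Agent.X267.CC
open Pool.Agent.H23R2.Cyc (ell ell_single ell_mul_comm ell_eq_sum tf tf_apply)
open Pool.Agent.H26R2.Bass (ind ind_comm)

universe u v

/-- the value at the conjugacy class of `g` of the Hattori-Stallings rank -/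
noncomputable def tau {R : Type u} [CommRing R] {G : Type v} [Group G] {n : ℕ}
    (A : Matrix (Fin n) (Fin n) (MonoidAlgebra R G)) (g : G) : R :=
  ∑ i : Fin n, ∑ᶠ (h : G) (_ : IsConj h g), (A i i).coeff h

/-- outside the rows and columns in `S`, the matrix is a matrix of constants conjugated by a
diagonal matrix of group elements -/
def ConstantCore {R : Type u} [CommRing R] {G : Type v} [Group G] {n : ℕ}
    (A : Matrix (Fin n) (Fin n) (MonoidAlgebra R G)) (S : Finset (Fin n)) : Prop :=
  ∃ (g : Fin n → G) (c : Fin n → Fin n → R), ∀ i j, i ∉ S → j ∉ S →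
    A i j = single (g i * (g j)⁻¹) (c i j)

section
variable {R : Type u} [CommRing R] {G : Type v} [Group G] {n : ℕ}

theorem tau_eq (A : Matrix (Fin n) (Fin n) (MonoidAlgebra R G)) (g : G) :
    tau A g = tf (ind R g) A := Pool.Agent.H26R2.Bass.tau_eq A g

theorem ind_one (g : G) (hg : g ≠ 1) : ind R g 1 = 0 := by
  classical
  unfold ind
  rw [if_neg]
  intro h
  exact hg (isConj_one_right.1 h)

theorem ind_one_one : ind R (1 : G) 1 = 1 := by
  classical
  unfold ind
  rw [if_pos (IsConj.refl 1)]

end

theorem reidx {K : Type u} [CommRing K] {G : Type v} [Group G] {κ : Type*} (_ft : Fintype κ)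
    (_de : DecidableEq κ) {m : ℕ} (σ : Fin m ≃ κ) (e : Matrix κ κ (MonoidAlgebra K G)) (he : e * e = e) :
    ∃ e' : Matrix (Fin m) (Fin m) (MonoidAlgebra K G), IsIdempotentElem e' ∧
      ∀ f : G → K, tf f e' = tf f e := by
  refine ⟨e.submatrix σ σ, ?_, ?_⟩
  · show e.submatrix σ σ * e.submatrix σ σ = e.submatrix σ σ
    rw [Matrix.submatrix_mul_equiv, he]
  · intro f
    rw [tf_apply, tf_apply]
    exact Equiv.sum_comp σ (fun i => ell f (e i i))

theorem cls_one {K : Type u} [CommRing K] {G : Type v} [Group G] (x : MonoidAlgebra K G) :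
    ∑ᶠ (h : G) (_ : IsConj h 1), x.coeff h = x.coeff 1 := by
  classical
  have h1 : ∀ h : G, (∑ᶠ (_ : IsConj h 1), x.coeff h) = if h = 1 then x.coeff h else 0 := by
    intro h
    by_cases hh : h = 1
    · rw [if_pos hh, finsum_eq_if, if_pos (by rw [hh])]
    · rw [if_neg hh, finsum_eq_if, if_neg (fun h2 => hh (isConj_one_left.1 h2))]
  rw [finsum_congr h1, finsum_eq_single _ (1 : G) (fun h hh => if_neg hh), if_pos rfl]

section
variable {R : Type u} [CommRing R] [IsDomain R] {G : Type v} [Group G] {n : ℕ}

theorem red (A : Matrix (Fin n) (Fin n) (MonoidAlgebra R G)) (S : Finset (Fin n))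
    (hA : IsIdempotentElem A) (hS : ConstantCore A S) :
    ∃ (e : Matrix (Fin S.card) (Fin S.card) (MonoidAlgebra (FractionRing R) G)) (m : ℕ),
      IsIdempotentElem e ∧ algebraMap R (FractionRing R) (tau A 1) = tau e 1 + m ∧
      ∀ g : G, g ≠ 1 → algebraMap R (FractionRing R) (tau A g) = tau e g := by
  classical
  obtain ⟨g, c, h⟩ := hS
  obtain ⟨e, m, he, hm⟩ := trace_general A hA (fun i => i ∈ S) g c h
  obtain ⟨e', he', htr⟩ := reidx (Subtype.fintype fun i => i ∈ S) inferInstance
    S.equivFin.symm e he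
  refine ⟨e', m, he', ?_, ?_⟩
  · rw [tau_eq, tau_eq, hm, htr, ind_one_one, mul_one]
  · intro x hx
    rw [tau_eq, tau_eq, hm, htr, ind_one x hx, mul_zero, add_zero]

theorem zero_of (A : Matrix (Fin n) (Fin n) (MonoidAlgebra R G)) (S : Finset (Fin n))
    (hA : IsIdempotentElem A) (hS : ConstantCore A S) (hc : S.card ≤ 1)
    (hK : ∀ e : MonoidAlgebra (FractionRing R) G, e * e = e →
      (∃ (r : R) (m : ℕ), algebraMap R (FractionRing R) r = e.coeff 1 + m) → e = 0 ∨ e = 1)
    (g : G) (hg : g ≠ 1) : tau A g = 0 := by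
  classical
  obtain ⟨e, m, he, h1, h2⟩ := red A S hA hS
  apply IsFractionRing.injective R (FractionRing R)
  rw [h2 g hg, map_zero]
  rcases Nat.le_one_iff_eq_zero_or_eq_one.1 hc with h0 | h0
  · have hem : ∀ i : Fin S.card, False := fun i => by
      have := i.2
      omega
    unfold tau
    apply Finset.sum_eq_zero
    intro i _
    exact (hem i).elim
  · have hs : ∀ F : Fin S.card → FractionRing R, ∑ i, F i = F ⟨0, by omega⟩ := by
      intro F
      apply Finset.sum_eq_single
      · intro b _ hb
        exfalso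
        apply hb
        apply Fin.ext
        have := b.2
        show (b : ℕ) = 0
        omega
      · intro h; exact absurd (Finset.mem_univ _) h
    set i0 : Fin S.card := ⟨0, by omega⟩ with hi0
    have hee : e i0 i0 * e i0 i0 = e i0 i0 := by
      have h3 := congrFun (congrFun he i0) i0
      rw [Matrix.mul_apply, Finset.sum_eq_single i0] at h3
      · exact h3
      · intro b _ hb
        exfalso
        apply hb
        apply Fin.ext
        have := b.2
        show (b : ℕ) = 0
        omega
      · intro h; exact absurd (Finset.mem_univ _) h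
    have ht : ∀ x : G, tau e x = ell (ind (FractionRing R) x) (e i0 i0) := by
      intro x
      rw [tau_eq, tf_apply, hs]
    have hc1 : tau e 1 = (e i0 i0).coeff 1 := by
      unfold tau
      rw [hs]
      exact cls_one _
    rw [ht]
    rcases hK (e i0 i0) hee ⟨tau A 1, m, by rw [h1, hc1]⟩ with h4 | h4
    · rw [h4, map_zero]
    · rw [h4, MonoidAlgebra.one_def, ell_single, one_mul, ind_one g hg]

end

/-- **Main theorem.** -/
theorem result :
    (∀ (R : Type u) [CommRing R] [IsDomain R] (G : Type v) [Group G] (n : ℕ)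
      (A : Matrix (Fin n) (Fin n) (MonoidAlgebra R G)) (S : Finset (Fin n)),
      IsIdempotentElem A → ConstantCore A S →
      (∃ (e : Matrix (Fin S.card) (Fin S.card) (MonoidAlgebra (FractionRing R) G)) (m : ℕ),
        IsIdempotentElem e ∧ algebraMap R (FractionRing R) (tau A 1) = tau e 1 + m ∧
        ∀ g : G, g ≠ 1 → algebraMap R (FractionRing R) (tau A g) = tau e g) ∧
      (S.card ≤ 1 → (∀ e : MonoidAlgebra (FractionRing R) G, IsIdempotentElem e →
        e = 0 ∨ e = 1) → ∀ g : G, g ≠ 1 → tau A g = 0)) ∧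
    (∀ (R : Type u) [CommRing R] [IsDomain R] (G : Type v) [Group G] (n : ℕ)
      (A : Matrix (Fin n) (Fin n) (MonoidAlgebra R G)) (S : Finset (Fin n)),
      IsIdempotentElem A → ConstantCore A S → S.card ≤ 1 →
      CharZero R → (∀ p : ℕ, p.Prime → ¬ IsUnit (p : R)) →
      (∀ g : G, IsOfFinOrder g → g = 1) → ∀ g : G, g ≠ 1 → tau A g = 0) ∧
    (∀ (G : Type v) [Group G] (n : ℕ) (A : Matrix (Fin n) (Fin n) (MonoidAlgebra ℤ G))
      (S : Finset (Fin n)), IsIdempotentElem A → ConstantCore A S → S.card ≤ 1 →
      ∀ g : G, g ≠ 1 → tau A g = 0) := by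
  refine ⟨?_, ?_, ?_⟩
  · intro R _ _ G _ n A S hA hS
    exact ⟨red A S hA hS, fun hc hK => zero_of A S hA hS hc (fun e he _ => hK e he)⟩
  · intro R _ _ G _ n A S hA hS hc hch hR hG
    have hchK : CharZero (FractionRing R) := by
      have : Function.Injective (algebraMap R (FractionRing R)) :=
        IsFractionRing.injective R (FractionRing R)
      exact charZero_of_injective_algebraMap this
    refine zero_of A S hA hS hc ?_
    rintro e he ⟨r, m, hr⟩
    obtain ⟨q, hq⟩ := Pool.Agent.Y75.Dn.tr_rat hG (Matrix.of fun (_ _ : Fin 1) => e) (by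
      ext1 i j
      rw [Matrix.mul_apply, Fin.sum_univ_one]
      exact he)
    rw [Pool.Agent.Y75.Dn.tr_apply, Fin.sum_univ_one] at hq
    have hq' : (q : FractionRing R) = e.coeff 1 := hq
    obtain ⟨z, hz⟩ := int_of_rat hR (q + m) r (by
      push_cast
      rw [hq', hr])
    refine idem_int e he (z - m) ?_
    push_cast
    rw [← hz]
    push_cast
    rw [← hq']
    ring
  · intro G _ n A S hA hS hc
    have hchK : CharZero (FractionRing ℤ) := by
      have : Function.Injective (algebraMap ℤ (FractionRing ℤ)) :=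
        IsFractionRing.injective ℤ (FractionRing ℤ)
      exact charZero_of_injective_algebraMap this
    refine zero_of A S hA hS hc ?_
    rintro e he ⟨r, m, hr⟩
    refine idem_int e he (r - m) ?_
    push_cast
    have h1 : algebraMap ℤ (FractionRing ℤ) r = (r : FractionRing ℤ) := by
      exact eq_intCast _ r
    rw [← h1, hr]
    ring

end Pool.Agent.Results.MP_7903c7_al.ConstantCoreTraces
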