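import Pool.Agent.X263.PL.Conj
import Pool.Agent.H26R2.Bass.Main

/-!
# The Bass trace conjecture for piecewise linear groups

Let `G` be a group of increasing piecewise affine bijections, with finitely many pieces, of a linearly
ordered field `K`; for example Thompson's group `F`, or any group of piecewise linear orientation
preserving homeomorphisms of a compact interval or of the real line.

(1) The Bass trace conjecture holds for `G` over all domains of characteristic zero.
(2) Over every domain the Hattori-Stallings rank of every projective module vanishes at all elements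
`g ≠ 1` which have a fixed point in `K`; so the conjecture holds for the piecewise linear groups of
compact intervals over all domains.
(3) If some prime number `p` is not a unit in `R` and no element of `G` has a slope `p ^ j`, `j ≥ 1`,
near `-∞`, then the conjecture holds for `R` and `G`.

Idea of the proof. The set of the slopes of `g` at the fixed points of `g` is an invariant of the
conjugacy class, and the slopes of `g ^ n` are the `n`-th powers; so an element with a fixed point is
not conjugate to a proper power. An element without fixed points which is conjugate to its `n`-th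
power by `h` is a translation near `-∞`, and the slope of `h` near `-∞` is `n`. In finitely generated
groups the primes are treated with the theorem that finitely generated linear groups of
characteristic zero have few roots.
-/

set_option autoImplicit false

namespace Pool.Agent.Results.MP_7903c7_al.PiecewiseLinearGroups

open Pool.Agent.H26R2.Bass (tau tau_eq exists_local tf_zero_of_good Good ind)
open Pool.Agent.H23R2.Cyc (tf)
open Pool.Agent.X263.PL

universe t u v

/-- `f : K → K` is piecewise affine with finitely many pieces: there is a finite set `S` such that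
`f` is affine on every closed interval which has no point of `S` in its interior. -/
def PiecewiseAffine {K : Type t} [Field K] [LinearOrder K] (f : K → K) : Prop :=
  ∃ S : Finset K, ∀ a b : K, a ≤ b → (∀ s ∈ S, ¬ (a < s ∧ s < b)) →
    ∃ m c : K, ∀ x, a ≤ x → x ≤ b → f x = m * x + c

/-- The rank of the idempotent matrix `A` over `R[G]` at the conjugacy class of `g`. -/
noncomputable def rank {R : Type u} [CommRing R] {G : Type v} [Group G] {n : ℕ}
    (A : Matrix (Fin n) (Fin n) (MonoidAlgebra R G)) (g : G) : R :=
  ∑ i : Fin n, ∑ᶠ (h : G) (_ : IsConj h g), (A i i).coeff h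

/-- The Bass trace conjecture for the ring `R` and the group `G`. -/
def BassFor (R : Type u) [CommRing R] (G : Type v) [Group G] : Prop :=
  ∀ (n : ℕ) (A : Matrix (Fin n) (Fin n) (MonoidAlgebra R G)), A * A = A →
    ∀ g : G, ¬ IsUnit ((orderOf g : ℕ) : R) → rank A g = 0

theorem result {K : Type t} [Field K] [LinearOrder K] [IsStrictOrderedRing K]
    {G : Type v} [Group G] (φ : G →* (K ≃o K)) (hφ : Function.Injective φ)
    (hPL : ∀ g, PiecewiseAffine (φ g)) (R : Type u) [CommRing R] [IsDomain R] :
    (CharZero R → BassFor R G) ∧
    (∀ (n : ℕ) (A : Matrix (Fin n) (Fin n) (MonoidAlgebra R G)), A * A = A →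
      ∀ g : G, g ≠ 1 → (∃ x, φ g x = x) → rank A g = 0) ∧
    (∀ p : ℕ, p.Prime → ¬ IsUnit (p : R) →
      (∀ (h : G) (j : ℕ), 1 ≤ j → ¬ ∃ b c : K, ∀ x, x ≤ b → φ h x = (p : K) ^ j * x + c) →
      BassFor R G) := by
  have hPA : ∀ g, PA (φ g) := hPL
  -- reduction to good elements of finitely generated subgroups
  have main : ∀ (n : ℕ) (A : Matrix (Fin n) (Fin n) (MonoidAlgebra R G)), A * A = A →
      ∀ g : G, (∀ H : Subgroup G, H.FG → ∀ h : H, IsConj (h : G) g → Good R h) →
      rank A g = 0 := by
    intro n A hA g hgood
    change tau A g = 0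
    rw [tau_eq]
    by_contra hne
    obtain ⟨H, hH, B, hB, h, hconj, hne'⟩ := exists_local A hA g hne
    exact hne' (tf_zero_of_good B hB h (hgood H hH h hconj))
  have hone : ∀ g : G, ¬ IsUnit ((orderOf g : ℕ) : R) → g ≠ 1 := by
    rintro g hg rfl
    apply hg
    rw [orderOf_one, Nat.cast_one]
    exact isUnit_one
  have hne1 : ∀ (H : Subgroup G) (h : H) (g : G), g ≠ 1 → IsConj (h : G) g → h ≠ 1 := by
    rintro H h g hg hconj rfl
    apply hg
    rw [Subgroup.coe_one] at hconj
    exact (isConj_one_right.1 hconj)
  have hsub : ∀ (H : Subgroup G) (h : H) (k : ℕ), IsConj h (h ^ k) → IsConj (h : G) ((h : G) ^ k) := by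
    intro H h k hc
    obtain ⟨c, hc⟩ := isConj_iff.1 hc
    exact isConj_iff.2 ⟨c, by simpa using congrArg Subtype.val hc⟩
  -- characteristic zero
  have zero : CharZero R → ∀ (H : Subgroup G), H.FG → ∀ h : H, h ≠ 1 → Good R h := by
    intro hR H hH h hh
    refine Or.inr (Or.inr ⟨hR, ?_⟩)
    rintro ⟨m, J, hm, hJ, hdiv⟩
    have : Group.FG H := (Group.fg_iff_subgroup_fg H).2 hH
    obtain ⟨p, hmp, hp, hcon⟩ := large_prime (φ := φ.comp H.subtype) (fun g => hPA g)
      (hφ.comp H.subtype_injective) hh m
    apply hcon J hJ
    apply hdiv p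
    exact (Nat.Prime.coprime_iff_not_dvd hp).2 fun hd => absurd (Nat.le_of_dvd (by omega) hd) (by omega)
  refine ⟨?_, ?_, ?_⟩
  · intro hR n A hA g hg
    exact main n A hA g fun H hH h hconj => zero hR H hH h (hne1 H h g (hone g hg) hconj)
  · intro n A hA g hg hfix
    apply main n A hA g
    intro H hH h hconj
    have hh := hne1 H h g hg hconj
    have hh' : (h : G) ≠ 1 := fun h0 => hh (Subtype.ext h0)
    have hfix' : ∃ x, φ h x = x := by
      obtain ⟨x, hx⟩ := hfix
      obtain ⟨c, hc⟩ := isConj_iff.1 hconj.symm
      refine ⟨φ c x, ?_⟩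
      rw [← hc, map_mul, map_mul, map_inv]
      change φ c (φ g ((φ c)⁻¹ (φ c x))) = φ c x
      have e0 : (φ c)⁻¹ (φ c x) = x := (φ c).symm_apply_apply x
      rw [e0, hx]
    by_cases hu : ∃ p : ℕ, p.Prime ∧ ¬ IsUnit (p : R)
    · obtain ⟨p, hp, hpR⟩ := hu
      refine Or.inr (Or.inl ⟨p, hp, hpR, fun j hj hc => ?_⟩)
      refine not_conj_pow hPA hφ hh' hfix' (n := p ^ j) ?_ (hsub H h _ hc)
      calc 2 ≤ p := hp.two_le
        _ ≤ p ^ j := Nat.le_self_pow (by omega) p
    · push Not at hu
      have hchar : CharZero R := by
        obtain ⟨q, hq⟩ := CharP.exists R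
        rcases CharP.char_is_prime_or_zero R q with h | h
        · exfalso
          have h2 := hu q h
          rw [CharP.cast_eq_zero R q] at h2
          exact not_isUnit_zero h2
        · subst h
          exact CharP.charP_to_charZero R
      exact zero hchar H hH h hh
  · intro p hp hpR hslope n A hA g hg
    apply main n A hA g
    intro H hH h hconj
    have hh := hne1 H h g (hone g hg) hconj
    have hh' : (h : G) ≠ 1 := fun h0 => hh (Subtype.ext h0)
    refine Or.inr (Or.inl ⟨p, hp, hpR, fun j hj hc => ?_⟩)
    have h2 : 2 ≤ p ^ j := hp.two_le.trans (Nat.le_self_pow (by omega) p)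
    by_cases hfix : ∃ x, φ h x = x
    · exact not_conj_pow hPA hφ hh' hfix h2 (hsub H h _ hc)
    · push Not at hfix
      obtain ⟨c, hc⟩ := isConj_iff.1 (hsub H h _ hc)
      obtain ⟨d, b, hb⟩ := slope_of_conj_pow hPA hfix h2 hc
      refine hslope c j hj ⟨b, d, fun x hx => ?_⟩
      rw [hb x hx]
      push_cast
      ring

end Pool.Agent.Results.MP_7903c7_al.PiecewiseLinearGroups
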