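import Pool.Agent.X265.Sub.Main

/-!
# The Bass trace conjecture for groups with orbits of subexponential growth

Let the group `G` act on the set `Ω` with orbits of subexponential growth (`SubexpOrbits`): for every
finite subset `S` of `G` and every `a > 1` for all large `r` at most `a ^ r` points are reached from any
point of `Ω` by products of `r` elements of `S`. For example

* every element of `G` is piecewise (with finitely many, arbitrary pieces) given by elements of a group
  `Γ` of subexponential growth: topological full groups of actions of `Γ`, groups of interval or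
  rectangle exchanges, wobbling groups of `Γ`;
* `G` consists of bijections of bounded displacement of a metric space with balls of uniformly
  subexponential growth;
* `G` is a contracting group of automorphisms of a rooted tree.

Then for every commutative domain `R` the Hattori-Stallings rank of every finitely generated projective
module over `R[G]` vanishes at all elements `g` of `G` all of whose positive powers act nontrivially; so
if only elements of finite order act trivially, the Bass trace conjecture holds for `R` and `G`.

Idea of the proof. Let `x g x⁻¹ = g ^ n`, `n ≥ 2`. All `g ^ i x ^ k` with `i < n ^ k` are products of `n k`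
elements of `{1, g, x}`. If no positive power of `g` acts trivially, `g` has orbits with at least `n ^ k`
points for every `k`; so from some point `n ^ k` points can be reached with `n k` steps. Hence `g` is not
conjugate to `g ^ n`, and in finitely generated subgroups neither.
-/

set_option autoImplicit false

namespace Pool.Agent.Results.MP_7903c7_al.SubexponentialOrbits

open Pool.Agent.X265.Sub

universe t u v w

/-- The rank of the idempotent matrix `A` over `R[G]` at the conjugacy class of `g`. -/
noncomputable def rank {R : Type u} [CommRing R] {G : Type v} [Group G] {n : ℕ}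
    (A : Matrix (Fin n) (Fin n) (MonoidAlgebra R G)) (g : G) : R :=
  ∑ i : Fin n, ∑ᶠ (h : G) (_ : IsConj h g), (A i i).coeff h

/-- The Bass trace conjecture for the ring `R` and the group `G`. -/
def BassFor (R : Type u) [CommRing R] (G : Type v) [Group G] : Prop :=
  ∀ (n : ℕ) (A : Matrix (Fin n) (Fin n) (MonoidAlgebra R G)), A * A = A →
    ∀ g : G, ¬ IsUnit ((orderOf g : ℕ) : R) → rank A g = 0

theorem result (R : Type u) [CommRing R] [IsDomain R] (G : Type v) [Group G] (Ω : Type w)
    [MulAction G Ω] :
    (SubexpOrbits G Ω →
      (∀ (n : ℕ) (A : Matrix (Fin n) (Fin n) (MonoidAlgebra R G)), A * A = A →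
        ∀ g : G, (∀ m : ℕ, 0 < m → ∃ ξ : Ω, g ^ m • ξ ≠ ξ) → rank A g = 0) ∧
      ((∀ g : G, (∀ ξ : Ω, g • ξ = ξ) → IsOfFinOrder g) → BassFor R G)) ∧
    (∀ (Γ : Type t) [Group Γ] [MulAction Γ Ω], SubexpGrowth Γ → Piecewise Γ G Ω →
      SubexpOrbits G Ω) ∧
    (∀ [PseudoMetricSpace Ω], SubexpBalls Ω → (∀ g : G, ∃ c : ℝ, ∀ ξ : Ω, dist ξ (g • ξ) ≤ c) →
      SubexpOrbits G Ω) ∧
    (∀ (X : Type w) [Finite X] [MulAction G (List X)], Contracting X G →
      SubexpOrbits G (List X)) := by
  refine ⟨fun hG => ?_, fun Γ _ _ => subexp_of_piecewise, fun h1 h2 => subexp_of_bounded h1 h2,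
    fun X _ _ => subexp_of_contracting⟩
  have h1 : ∀ (n : ℕ) (A : Matrix (Fin n) (Fin n) (MonoidAlgebra R G)), A * A = A →
      ∀ g : G, (∀ m : ℕ, 0 < m → ∃ ξ : Ω, g ^ m • ξ ≠ ξ) → rank A g = 0 :=
    fun n A hA g hg => tau_zero hG A hA g hg
  refine ⟨h1, fun hker n A hA g hg => ?_⟩
  by_cases hfin : orderOf g = 0
  · apply h1 n A hA g
    intro m hm
    by_contra hcon
    push Not at hcon
    have h2 := hker _ hcon
    have h3 : IsOfFinOrder g := by
      rw [isOfFinOrder_pow] at h2
      exact h2.resolve_right (by omega)
    exact (orderOf_pos_iff.2 h3).ne' hfin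
  · exact tau_zero_fin A hA g hfin hg

end Pool.Agent.Results.MP_7903c7_al.SubexponentialOrbits
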